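import Pool.Agent.H867.FT.Gen6
import Pool.Agent.H638.FT867NYO
import Pool.Agent.H726.FT867SHF
import Pool.Agent.H738.FT867KRU
import Pool.Agent.H307.FT867LOB

/-!
# FTV CLB: codimension one statements for non-normal cubic rings
-/

set_option autoImplicit false

namespace Pool.Agent.H102.FT867CLB

open Pool.Agent.H867.FT Module
open scoped nonZeroDivisors

/-- one of four values of the cubic is not in the prime -/
theorem exists_value {P : Type} [CommRing P] (a b c d : P) (l : Fin 4 → P)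
    (hl : ∀ i j, i ≠ j → IsUnit (l i - l j)) (𝔭 : Ideal P) (h𝔭 : 𝔭.IsPrime)
    (hn : ¬ Ideal.span {a, b, c, d} ≤ 𝔭) :
    ∃ i, a * l i ^ 3 + b * l i ^ 2 + c * l i + d ∉ 𝔭 := by
  by_contra hcon
  push Not at hcon
  haveI : IsDomain (P ⧸ 𝔭) := Ideal.Quotient.isDomain 𝔭
  obtain ⟨π, hπ⟩ : ∃ π : P →+* P ⧸ 𝔭, π = Ideal.Quotient.mk 𝔭 := ⟨_, rfl⟩
  obtain ⟨Q, hQd⟩ : ∃ Q : Cubic (P ⧸ 𝔭), Q = ⟨π a, π b, π c, π d⟩ := ⟨_, rfl⟩
  have hQ : Q.toPoly = 0 := by
    refine Polynomial.eq_zero_of_natDegree_lt_card_of_eval_eq_zero Q.toPoly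
      (f := fun i => π (l i)) ?_ ?_ ?_
    · intro i j hij
      by_contra hne
      have h2 : l i - l j ∈ 𝔭 := by
        rw [hπ] at hij
        exact Ideal.Quotient.eq.1 hij
      exact h𝔭.ne_top (Ideal.eq_top_of_isUnit_mem _ h2 (hl i j hne))
    · intro i
      have h1 : π (a * l i ^ 3 + b * l i ^ 2 + c * l i + d) = 0 := by
        rw [hπ]
        exact Ideal.Quotient.eq_zero_iff_mem.2 (hcon i)
      rw [map_add, map_add, map_add, map_mul, map_mul, map_mul, map_pow, map_pow] at h1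
      rw [hQd]
      simp only [Cubic.toPoly, Polynomial.eval_add, Polynomial.eval_mul, Polynomial.eval_C,
        Polynomial.eval_pow, Polynomial.eval_X]
      exact h1
    · have h3 : Q.toPoly.natDegree ≤ 3 := Polynomial.natDegree_cubic_le
      rw [Fintype.card_fin]
      omega
  have ha : π a = 0 := by
    have := Q.coeff_eq_a
    rw [hQ, Polynomial.coeff_zero, hQd] at this
    exact this.symm
  have hb : π b = 0 := by
    have := Q.coeff_eq_b
    rw [hQ, Polynomial.coeff_zero, hQd] at this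
    exact this.symm
  have hc : π c = 0 := by
    have := Q.coeff_eq_c
    rw [hQ, Polynomial.coeff_zero, hQd] at this
    exact this.symm
  have hd : π d = 0 := by
    have := Q.coeff_eq_d
    rw [hQ, Polynomial.coeff_zero, hQd] at this
    exact this.symm
  rw [hπ, Ideal.Quotient.eq_zero_iff_mem] at ha hb hc hd
  apply hn
  rw [Ideal.span_le]
  intro z hz
  simp only [Set.mem_insert_iff, Set.mem_singleton_iff] at hz
  rcases hz with rfl | rfl | rfl | rfl
  · exact ha
  · exact hb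
  · exact hc
  · exact hd

section

variable {P R L K : Type} [CommRing P] [IsDomain P] [CommRing R] [IsDomain R]
  [Algebra P R] [Field L] [Algebra P L] [IsFractionRing P L]
  [Field K] [Algebra R K] [IsFractionRing R K] [Algebra P K] [IsScalarTower P R K]
  [Algebra L K] [IsScalarTower P L K]

theorem aC (C : Submodule R K) (a b c d : P) (x y₀ : K) (ω θ : R)
    (h : IsCub L C a b c d x y₀ ω θ) :
    y₀ ∈ C ∧ ∀ z ∈ C, ∃ r : R, algebraMap P K a * z = y₀ * algebraMap R K r := by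
  constructor
  · rw [h.hC]
    exact ⟨1, 0, 0, by rw [map_one, map_zero]; ring⟩
  · intro z hz
    obtain ⟨g₀, g₁, g₂, rfl⟩ := (h.hC z).1 hz
    refine ⟨algebraMap P R (a * g₀) + algebraMap P R g₁ * ω + algebraMap P R (a * g₂) * θ, ?_⟩
    rw [map_add, map_add, map_mul (algebraMap R K), map_mul (algebraMap R K),
      ← IsScalarTower.algebraMap_apply P R K, ← IsScalarTower.algebraMap_apply P R K,
      ← IsScalarTower.algebraMap_apply P R K, h.hω, map_mul (algebraMap P K),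
      map_mul (algebraMap P K)]
    ring

theorem locdata [FiniteDimensional L K] [Algebra.IsSeparable L K] (bs : Basis (Fin 3) P R)
    (C : Submodule R K) (a b c d : P) (x y₀ : K) (ω θ : R) (l : Fin 4 → P)
    (hl : ∀ i j, i ≠ j → IsUnit (l i - l j))
    (hC : ∀ y : K, y ∈ C ↔
      ∀ r : R, ∃ g : P, algebraMap P L g = Algebra.trace L K (y * algebraMap R K r))
    (h : IsCub L C a b c d x y₀ ω θ) (𝔭 : Ideal P) (h𝔭 : 𝔭.IsPrime)
    (hn : ¬ Ideal.span {a, b, c, d} ≤ 𝔭) :
    ∃ (y : K) (s ε : P), y ∈ C ∧ y ≠ 0 ∧ s ∉ 𝔭 ∧ IsUnit ε ∧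
      (∀ z ∈ C, ∃ r : R, algebraMap P K s * z = y * algebraMap R K r) ∧
      Algebra.norm L y * algebraMap P L (Algebra.discr P bs) = algebraMap P L (ε * s) := by
  obtain ⟨i, hi⟩ := exists_value a b c d l hl 𝔭 h𝔭 hn
  obtain ⟨ω', θ', h'⟩ := (Pool.Agent.H726.FT867SHF.shf P R L K C a b c d x y₀ ω θ h).1 (l i)
  obtain ⟨-, -, ω'', θ'', h''⟩ :=
    (Pool.Agent.H726.FT867SHF.shf P R L K C _ _ _ _ _ y₀ ω' θ' h').2
  obtain ⟨ε, hε, hN⟩ := Pool.Agent.H638.FT867NYO.nyo P R L K bs C _ _ _ _ _ _ ω'' θ'' hC h''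
  obtain ⟨h1, h2⟩ := aC C _ _ _ _ _ _ ω'' θ'' h''
  exact ⟨_, _, ε, h1, h''.hy, hi, hε, h2, hN⟩

/-- powers -/
theorem powC (C : Submodule R K) (s : P) (y : K)
    (h : ∀ z ∈ C, ∃ r : R, algebraMap P K s * z = y * algebraMap R K r) (m : ℕ) :
    ∀ z ∈ C ^ m, ∃ r : R, algebraMap P K s ^ m * z = y ^ m * algebraMap R K r := by
  induction m with
  | zero =>
    intro z hz
    rw [pow_zero, Submodule.mem_one] at hz
    obtain ⟨r, rfl⟩ := hz
    exact ⟨r, by rw [pow_zero, pow_zero]⟩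
  | succ m ih =>
    intro z hz
    rw [pow_succ] at hz
    refine Submodule.mul_induction_on hz ?_ ?_
    · intro u hu v hv
      obtain ⟨r, hr⟩ := ih u hu
      obtain ⟨r', hr'⟩ := h v hv
      refine ⟨r * r', ?_⟩
      rw [map_mul, pow_succ, pow_succ]
      calc algebraMap P K s ^ m * algebraMap P K s * (u * v)
          = (algebraMap P K s ^ m * u) * (algebraMap P K s * v) := by ring
        _ = _ := by rw [hr, hr']; ring
    · intro u v hu hv
      obtain ⟨r, hr⟩ := hu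
      obtain ⟨r', hr'⟩ := hv
      exact ⟨r + r', by rw [map_add, mul_add, mul_add, hr, hr']⟩

end

theorem clb : Pool.Agent.H867.FT.S_CLB := by
  intro q P R L K _ _ _ _ _ _ _ _ _ _ _ _ _ _ _ _ _ _ _ _ _ bs C a b c d x y₀ ω θ l β
    hq hl hC hcub hht hβC hβ
  classical
  have hPL : Function.Injective (algebraMap P L) := IsFractionRing.injective P L
  have hRK : Function.Injective (algebraMap R K) := IsFractionRing.injective R K
  have hPK : ∀ g : P, algebraMap P K g = algebraMap L K (algebraMap P L g) :=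
    fun g => IsScalarTower.algebraMap_apply P L K g
  have hPK' : ∀ g : P, algebraMap R K (algebraMap P R g) = algebraMap P K g :=
    fun g => (IsScalarTower.algebraMap_apply P R K g).symm
  have : Nontrivial R := inferInstance
  have : FaithfulSMul P R := inferInstance
  have : Algebra.IsIntegral P R := inferInstance
  have : Algebra.IsAlgebraic P R := inferInstance
  have : IsLocalization (Algebra.algebraMapSubmonoid R P⁰) K := inferInstance
  obtain ⟨b', hb'⟩ : ∃ b' : Basis (Fin 3) L K, b' = bs.localizationLocalization L P⁰ K := ⟨_, rfl⟩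
  have hb'a : ∀ i, b' i = algebraMap R K (bs i) := by
    intro i; rw [hb']; exact Basis.localizationLocalization_apply L P⁰ K bs i
  have hb'r : ∀ r i, b'.repr (algebraMap R K r) i = algebraMap P L (bs.repr r i) := by
    intro r i; rw [hb']; exact Basis.localizationLocalization_repr_algebraMap L P⁰ K bs r i
  have hfr : Module.finrank L K = 3 := by
    rw [Module.finrank_eq_card_basis b', Fintype.card_fin]
  have hnorm : ∀ r : R, Algebra.norm L (algebraMap R K r) = algebraMap P L (Algebra.norm P r) :=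
    fun r => Algebra.norm_localization P P⁰ r
  obtain ⟨D, hD⟩ : ∃ D : P, D = Algebra.discr P bs := ⟨_, rfl⟩
  have hD0 : algebraMap P L D ≠ 0 := by
    obtain ⟨ε, hε, hN⟩ := Pool.Agent.H638.FT867NYO.nyo P R L K bs C a b c d x y₀ ω θ hC hcub
    intro h0
    rw [← hD, h0, mul_zero] at hN
    have h1 : ε * a = 0 := hPL (by rw [← hN, map_zero])
    rcases mul_eq_zero.1 h1 with h2 | h2
    · exact hε.ne_zero h2
    · exact hcub.ha h2
  -- the local data
  have hloc : ∀ 𝔭 : Ideal P, 𝔭.IsPrime → 𝔭.height = 1 →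
      ∃ (y : K) (s ε : P) (r₁ : R), y ∈ C ∧ y ≠ 0 ∧ s ∉ 𝔭 ∧ ε ∉ 𝔭 ∧
      (∀ z ∈ C, ∃ r : R, algebraMap P K s * z = y * algebraMap R K r) ∧
      Algebra.norm L y * algebraMap P L D = algebraMap P L (ε * s) ∧
      algebraMap P K s * (β * y ^ (q - 1)) = algebraMap R K r₁ := by
    intro 𝔭 h𝔭 hh
    obtain ⟨y, s, ε, h1, h2, h3, h4, h5, h6⟩ :=
      locdata bs C a b c d x y₀ ω θ l hl hC hcub 𝔭 h𝔭 (hht 𝔭 h𝔭 hh)
    obtain ⟨r₁, hr₁⟩ := h5 _ (hβC y h1)
    refine ⟨y, s, ε, r₁, h1, h2, h3, ?_, h5, by rw [hD]; exact h6, ?_⟩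
    · intro h
      exact h𝔭.ne_top (Ideal.eq_top_of_isUnit_mem _ h h4)
    · apply mul_left_cancel₀ h2
      rw [← hr₁]
      obtain ⟨q', rfl⟩ : ∃ q', q = q' + 1 := ⟨q - 1, by omega⟩
      rw [Nat.add_sub_cancel, pow_succ]
      ring
  -- the norm
  have hkey : ∀ (y : K) (s ε : P) (r₁ : R), y ≠ 0 →
      Algebra.norm L y * algebraMap P L D = algebraMap P L (ε * s) →
      algebraMap P K s * (β * y ^ (q - 1)) = algebraMap R K r₁ →
      algebraMap P L (s ^ 3 * (ε * s) ^ (q - 1)) *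
        (Algebra.norm L β / algebraMap P L D ^ (q - 1)) = algebraMap P L (Algebra.norm P r₁) := by
    intro y s ε r₁ hy hN hr
    have h1 : Algebra.norm L (algebraMap P K s * (β * y ^ (q - 1))) =
        algebraMap P L s ^ 3 * (Algebra.norm L β * Algebra.norm L y ^ (q - 1)) := by
      rw [map_mul, map_mul, map_pow, hPK, Algebra.norm_algebraMap, hfr]
    rw [← hnorm, ← hr, h1, map_mul (algebraMap P L), map_pow (algebraMap P L),
      map_pow (algebraMap P L), ← hN, mul_pow]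
    have h2 : algebraMap P L D ^ (q - 1) ≠ 0 := pow_ne_zero _ hD0
    field_simp
  obtain ⟨g, hg⟩ := Pool.Agent.H738.FT867KRU.kru P L
      (Algebra.norm L β / algebraMap P L D ^ (q - 1)) (by
    intro 𝔭 h𝔭 hh
    obtain ⟨y, s, ε, r₁, -, h2, h3, h4, -, h6, h7⟩ := hloc 𝔭 h𝔭 hh
    refine ⟨s ^ 3 * (ε * s) ^ (q - 1), ?_, _, hkey y s ε r₁ h2 h6 h7⟩
    exact 𝔭.primeCompl.mul_mem (𝔭.primeCompl.pow_mem h3 _)
      (𝔭.primeCompl.pow_mem (𝔭.primeCompl.mul_mem h4 h3) _))
  refine ⟨⟨g, ?_, ?_⟩, ?_⟩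
  · rw [map_mul, map_pow, ← hg, ← hD, div_mul_cancel₀ _ (pow_ne_zero _ hD0)]
  · intro 𝔭 h𝔭 hh
    obtain ⟨y, s, ε, r₁, h1, h2, h3, h4, -, h6, h7⟩ := hloc 𝔭 h𝔭 hh
    refine ⟨s ^ 2 * (ε * s) ^ (q - 1), 𝔭.primeCompl.mul_mem (𝔭.primeCompl.pow_mem h3 _)
      (𝔭.primeCompl.pow_mem (𝔭.primeCompl.mul_mem h4 h3) _), ?_⟩
    obtain ⟨r₂, hr₂⟩ := Pool.Agent.H307.FTLOB.dvd_norm bs r₁
    have hk := hkey y s ε r₁ h2 h6 h7
    rw [hg, ← map_mul] at hk
    have hk2 : s ^ 3 * (ε * s) ^ (q - 1) * g = Algebra.norm P r₁ := hPL hk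
    have hk3 : algebraMap P K (s ^ 3 * (ε * s) ^ (q - 1) * g) =
        algebraMap P K s * (β * y ^ (q - 1)) * algebraMap R K r₂ := by
      rw [hk2, ← hPK', hr₂, map_mul, h7]
    have hs0 : algebraMap P K s ≠ 0 := by
      intro h
      have h' : s = 0 := by
        apply hPL
        apply (algebraMap L K).injective
        rw [← hPK, h, map_zero, map_zero]
      exact h3 (by rw [h']; exact 𝔭.zero_mem)
    have e : algebraMap P K (s ^ 2 * (ε * s) ^ (q - 1)) * (algebraMap P K g / β) =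
        algebraMap R K r₂ * y ^ (q - 1) := by
      apply mul_left_cancel₀ (mul_ne_zero hs0 hβ)
      have e1 : algebraMap P K s * β * (algebraMap P K (s ^ 2 * (ε * s) ^ (q - 1)) *
          (algebraMap P K g / β)) = algebraMap P K (s ^ 3 * (ε * s) ^ (q - 1) * g) := by
        simp only [map_mul, map_pow]
        field_simp
      rw [e1, hk3]
      ring
    rw [e, ← Algebra.smul_def]
    exact (C ^ (q - 1)).smul_mem r₂ (Submodule.pow_mem_pow C h1 _)
  · intro z hz
    -- the coordinates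
    have hco : ∀ i : Fin 3, ∃ t : P, b'.repr (β * z) i = algebraMap P L t := by
      intro i
      refine Pool.Agent.H738.FT867KRU.kru P L _ fun 𝔭 h𝔭 hh => ?_
      obtain ⟨y, s, ε, r₁, h1, h2, h3, h4, h5, h6, h7⟩ := hloc 𝔭 h𝔭 hh
      obtain ⟨r, hr⟩ := powC C s y h5 (q - 1) z hz
      refine ⟨s ^ q, 𝔭.primeCompl.pow_mem h3 _, bs.repr (r₁ * r) i, ?_⟩
      rw [← hb'r, map_mul (algebraMap R K), ← h7]
      have e1 : algebraMap P K s * (β * y ^ (q - 1)) * algebraMap R K r =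
          (algebraMap P L (s ^ q)) • (β * z) := by
        have e2 : algebraMap P K s * (β * y ^ (q - 1)) * algebraMap R K r =
            algebraMap P K s * β * (y ^ (q - 1) * algebraMap R K r) := by ring
        rw [e2, ← hr, Algebra.smul_def, ← hPK, map_pow]
        obtain ⟨q', rfl⟩ : ∃ q', q = q' + 1 := ⟨q - 1, by omega⟩
        rw [Nat.add_sub_cancel, pow_succ]
        ring
      rw [e1, map_smul]
      rfl
    choose t ht using hco
    refine ⟨∑ i, t i • bs i, ?_⟩
    rw [← b'.sum_repr (β * z), map_sum]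
    refine Finset.sum_congr rfl fun i _ => ?_
    rw [ht, Algebra.smul_def, Algebra.smul_def, map_mul, hPK', ← hPK, hb'a]

end Pool.Agent.H102.FT867CLB
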