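import Pool.Agent.H867.FT.Gen9

/-!
# DES: descent of torsion along a flat local map
-/

set_option autoImplicit false

namespace Pool.Agent.H102.FT.DES

open Pool.Agent.H867.FT

section

variable {R S K K' : Type} [CommRing R] [CommRing S] [Algebra R S] [Field K] [Algebra R K]
  [Field K'] [Algebra S K']

/-- The span of the image. -/
def E (S : Type) {R K K' : Type} [CommRing R] [CommRing S] [Field K] [Algebra R K]
    [Field K'] [Algebra S K'] (j : K →+* K') (X : Submodule R K) : Submodule S K' :=
  Submodule.span S (j '' (X : Set K))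

theorem E_mul (j : K →+* K')
    (hj : ∀ r : R, j (algebraMap R K r) = algebraMap S K' (algebraMap R S r))
    (X Y : Submodule R K) : E S j (X * Y) = E S j X * E S j Y := by
  apply le_antisymm
  · refine Submodule.span_le.mpr ?_
    rintro _ ⟨z, hz, rfl⟩
    refine Submodule.mul_induction_on hz ?_ ?_
    · intro x hx y hy
      rw [map_mul]
      exact Submodule.mul_mem_mul (Submodule.subset_span ⟨x, hx, rfl⟩)
        (Submodule.subset_span ⟨y, hy, rfl⟩)
    · intro x y hx hy
      rw [map_add]
      exact Submodule.add_mem _ hx hy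
  · rw [E, E, Submodule.span_mul_span]
    refine Submodule.span_le.mpr ?_
    rintro _ ⟨_, ⟨x, hx, rfl⟩, _, ⟨y, hy, rfl⟩, rfl⟩
    refine Submodule.subset_span ⟨x * y, Submodule.mul_mem_mul hx hy, map_mul j x y⟩

theorem E_one (j : K →+* K')
    (hj : ∀ r : R, j (algebraMap R K r) = algebraMap S K' (algebraMap R S r)) :
    E S j (1 : Submodule R K) = 1 := by
  apply le_antisymm
  · refine Submodule.span_le.mpr ?_
    rintro _ ⟨z, hz, rfl⟩
    obtain ⟨r, rfl⟩ := Submodule.mem_one.mp hz
    exact Submodule.mem_one.mpr ⟨algebraMap R S r, (hj r).symm⟩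
  · intro z hz
    obtain ⟨s, rfl⟩ := Submodule.mem_one.mp hz
    rw [Algebra.algebraMap_eq_smul_one]
    refine Submodule.smul_mem _ s (Submodule.subset_span ⟨1, ?_, map_one j⟩)
    exact Submodule.mem_one.mpr ⟨1, map_one _⟩

theorem E_pow (j : K →+* K')
    (hj : ∀ r : R, j (algebraMap R K r) = algebraMap S K' (algebraMap R S r))
    (X : Submodule R K) (n : ℕ) : E S j (X ^ n) = E S j X ^ n := by
  induction n with
  | zero => rw [pow_zero, pow_zero, E_one j hj]
  | succ n ih => rw [pow_succ, pow_succ, E_mul j hj, ih]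

end

section

variable {R K : Type} [CommRing R] [IsDomain R] [Field K] [Algebra R K] [IsFractionRing R K]

theorem pow_ne_bot (X : Submodule R K) (hX : X ≠ ⊥) (n : ℕ) : X ^ n ≠ ⊥ := by
  obtain ⟨x, hx, hx0⟩ := Submodule.exists_mem_ne_zero_of_ne_bot hX
  intro h0
  have h1 : x ^ n ∈ X ^ n := Submodule.pow_mem_pow X hx n
  rw [h0, Submodule.mem_bot] at h1
  exact pow_ne_zero n hx0 h1

theorem inv_ne_bot (X : Submodule R K) (hX : X.FG) : (1 / X : Submodule R K) ≠ ⊥ := by
  obtain ⟨b, hb, hbX⟩ := FractionalIdeal.isFractional_of_fg (S := nonZeroDivisors R) hX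
  intro h0
  have h1 : algebraMap R K b ∈ (1 / X : Submodule R K) := by
    rw [Submodule.mem_div_iff_forall_mul_mem]
    intro y hy
    obtain ⟨r, hr⟩ := hbX y hy
    refine Submodule.mem_one.mpr ⟨r, ?_⟩
    rw [hr, Algebra.smul_def]
  rw [h0, Submodule.mem_bot] at h1
  exact (IsFractionRing.to_map_eq_zero_iff.not.mpr (nonZeroDivisors.ne_zero hb)) h1

theorem inv_fg [IsNoetherianRing R] (X : Submodule R K) (hX : X ≠ ⊥) :
    (1 / X : Submodule R K).FG := by
  obtain ⟨x, hx, hx0⟩ := Submodule.exists_mem_ne_zero_of_ne_bot hX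
  have hle : (1 / X : Submodule R K) ≤ Submodule.span R {x⁻¹} := by
    intro z hz
    rw [Submodule.mem_div_iff_forall_mul_mem] at hz
    obtain ⟨r, hr⟩ := Submodule.mem_one.mp (hz x hx)
    refine Submodule.mem_span_singleton.mpr ⟨r, ?_⟩
    rw [Algebra.smul_def, hr, mul_assoc, mul_inv_cancel₀ hx0, mul_one]
  exact (Submodule.fg_span_singleton _).of_le hle

end

theorem des (h : S_FDV) : S_DES := by
  intro R S K K' _ _ _ _ _ _ _ _ _ _ _ _ _ _ _ _ j hj C hC hT
  obtain ⟨n, hn, t, ht⟩ := hT
  change 1 / (1 / E S j C ^ n) = Submodule.span S {t} at ht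
  by_cases hC0 : C = ⊥
  · refine ⟨1, le_refl _, ?_⟩
    rw [pow_one, hC0]
    have h1 : (1 / (⊥ : Submodule R K) : Submodule R K) = ⊤ := by
      rw [eq_top_iff]
      intro z _
      rw [Submodule.mem_div_iff_forall_mul_mem]
      intro y hy
      rw [(Submodule.mem_bot R).mp hy, mul_zero]
      exact Submodule.zero_mem _
    rw [h1]
    by_cases hs : (1 / (⊤ : Submodule R K) : Submodule R K) = ⊥
    · refine ⟨0, ?_⟩
      rw [hs, Submodule.span_singleton_eq_bot.mpr rfl]
    · obtain ⟨z, hz, hz0⟩ := Submodule.exists_mem_ne_zero_of_ne_bot hs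
      rw [Submodule.mem_div_iff_forall_mul_mem] at hz
      have hall : ∀ y : K, ∃ r : R, algebraMap R K r = y := by
        intro y
        have h2 := hz (z⁻¹ * y) trivial
        rw [← mul_assoc, mul_inv_cancel₀ hz0, one_mul] at h2
        exact Submodule.mem_one.mp h2
      refine ⟨1, ?_⟩
      apply le_antisymm
      · intro w _
        obtain ⟨r, hr⟩ := hall w
        refine Submodule.mem_span_singleton.mpr ⟨r, ?_⟩
        rw [Algebra.smul_def, mul_one, hr]
      · rw [Submodule.span_singleton_le_iff_mem, Submodule.mem_div_iff_forall_mul_mem]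
        intro y _
        obtain ⟨r, hr⟩ := hall y
        rw [one_mul, ← hr]
        exact Submodule.mem_one.mpr ⟨r, rfl⟩
  · have hX0 : C ^ n ≠ ⊥ := pow_ne_bot C hC0 n
    have hXf : (C ^ n).FG := hC.pow n
    have h1 : E S j (1 / C ^ n) = 1 / E S j (C ^ n) := h R S K K' j hj (C ^ n) hXf hX0
    have h2 : E S j (1 / (1 / C ^ n)) = 1 / E S j (1 / C ^ n) :=
      h R S K K' j hj (1 / C ^ n) (inv_fg _ hX0) (inv_ne_bot _ hXf)
    rw [h1, E_pow j hj, ht] at h2
    refine ⟨n, hn, ?_⟩
    set D : Submodule R K := 1 / (1 / C ^ n) with hD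
    have hmem : ∀ z ∈ D, ∃ s : S, j z = s • t := by
      intro z hz
      have h3 : j z ∈ E S j D := Submodule.subset_span ⟨z, hz, rfl⟩
      rw [h2, Submodule.mem_span_singleton] at h3
      obtain ⟨s, hs⟩ := h3
      exact ⟨s, hs.symm⟩
    by_cases ht0 : t = 0
    · refine ⟨0, ?_⟩
      rw [Submodule.span_singleton_eq_bot.mpr rfl, eq_bot_iff]
      intro z hz
      obtain ⟨s, hs⟩ := hmem z hz
      rw [ht0, smul_zero] at hs
      exact (Submodule.mem_bot R).mpr ((map_eq_zero j).mp hs)
    · have hex : ∃ d ∈ D, ∃ u : S, IsUnit u ∧ j d = u • t := by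
        by_contra hno
        have hle : E S j D ≤
            Submodule.map (LinearMap.toSpanSingleton S K' t) (IsLocalRing.maximalIdeal S) := by
          refine Submodule.span_le.mpr ?_
          rintro _ ⟨z, hz, rfl⟩
          obtain ⟨s, hs⟩ := hmem z hz
          refine ⟨s, ?_, ?_⟩
          · rw [SetLike.mem_coe, IsLocalRing.mem_maximalIdeal, mem_nonunits_iff]
            intro hu
            exact hno ⟨z, hz, s, hu, hs⟩
          · rw [LinearMap.toSpanSingleton_apply, hs]
        have h3 : t ∈ E S j D := by
          rw [h2]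
          exact Submodule.mem_span_singleton_self t
        obtain ⟨s, hs, hst⟩ := hle h3
        rw [LinearMap.toSpanSingleton_apply, Algebra.smul_def] at hst
        have h4 : algebraMap S K' s = 1 := by
          have h5 : algebraMap S K' s * t = 1 * t := by rw [hst, one_mul]
          exact mul_right_cancel₀ ht0 h5
        have h6 : s = 1 := by
          apply IsFractionRing.injective S K'
          rw [h4, map_one]
        rw [SetLike.mem_coe, IsLocalRing.mem_maximalIdeal, mem_nonunits_iff, h6] at hs
        exact hs isUnit_one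
      obtain ⟨d, hd, u, hu, hdu⟩ := hex
      obtain ⟨v, hv⟩ := hu.exists_left_inv
      have hd0 : d ≠ 0 := by
        intro h0
        rw [h0, map_zero] at hdu
        have h3 : v • (0 : K') = v • (u • t) := by rw [← hdu]
        rw [smul_zero, smul_smul, hv, one_smul] at h3
        exact ht0 h3.symm
      have htd : t = v • j d := by
        rw [hdu, smul_smul, hv, one_smul]
      refine ⟨d, ?_⟩
      apply le_antisymm
      · intro z hz
        obtain ⟨s, hs⟩ := hmem z hz
        rw [htd, smul_smul] at hs
        obtain ⟨a, b, hb, hab⟩ := IsFractionRing.div_surjective (A := R) (z / d)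
        have hb0 : b ≠ 0 := nonZeroDivisors.ne_zero hb
        have hbK : algebraMap R K b ≠ 0 := IsFractionRing.to_map_eq_zero_iff.not.mpr hb0
        have hjd : j d ≠ 0 := (map_ne_zero j).mpr hd0
        -- `z b = a d`
        have h3 : z * algebraMap R K b = algebraMap R K a * d := by
          field_simp at hab
          rw [hab]
          ring
        have h4 : algebraMap S K' (algebraMap R S a) =
            algebraMap S K' ((s * v) * algebraMap R S b) := by
          have h5 : j z * j (algebraMap R K b) = j (algebraMap R K a) * j d := by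
            rw [← map_mul, ← map_mul, h3]
          rw [hs, hj, hj, Algebra.smul_def] at h5
          rw [map_mul]
          apply mul_right_cancel₀ hjd
          rw [← h5]
          ring
        have h6 : algebraMap R S a = (s * v) * algebraMap R S b := IsFractionRing.injective S K' h4
        haveI : Module.FaithfullyFlat R S := Module.FaithfullyFlat.of_flat_of_isLocalHom
        have h7 : a ∈ Ideal.comap (algebraMap R S)
            (Ideal.map (algebraMap R S) (Ideal.span {b})) := by
          rw [Ideal.mem_comap, h6]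
          exact Ideal.mul_mem_left _ _ (Ideal.mem_map_of_mem _ (Ideal.mem_span_singleton_self b))
        rw [Ideal.comap_map_eq_self_of_faithfullyFlat, Ideal.mem_span_singleton] at h7
        obtain ⟨c, hc⟩ := h7
        refine Submodule.mem_span_singleton.mpr ⟨c, ?_⟩
        rw [Algebra.smul_def]
        apply mul_right_cancel₀ hbK
        rw [h3, hc, map_mul]
        ring
      · rw [Submodule.span_singleton_le_iff_mem]
        exact hd

end Pool.Agent.H102.FT.DES
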