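import Pool.Agent.H398.Kt.Iface

/-!
# K4b: the two-dimensional modules `V_i`, whose tensor product is free
-/

set_option autoImplicit false
set_option linter.unusedVariables false
set_option linter.unusedSectionVars false

open scoped TensorProduct

namespace Pool.Agent.H102.Kt

open Pool.Agent.H398.Kt Pool.Agent.H398.Kt.Md

universe u

section

variable (k : Type u) [Field k] (r : ℕ)

/-- The operator `(a, b) ↦ (b, 0)`. -/
def shf : (k × k) →ₗ[k] (k × k) := (LinearMap.inl k k k) ∘ₗ (LinearMap.snd k k k)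

theorem shf_apply (v : k × k) : shf k v = (v.2, 0) := rfl

theorem shf_shf (v : k × k) : shf k (shf k v) = 0 := rfl

/-- The module `V_i`. -/
abbrev Vm (i : Fin r) : Md k r where
  V := k × k
  x j := if j = i then shf k else 0
  comm a b v := by
    by_cases ha : a = i
    · by_cases hb : b = i
      · rw [if_pos ha, if_pos hb]
      · rw [if_neg hb, LinearMap.zero_apply, LinearMap.zero_apply, map_zero]
    · rw [if_neg ha, LinearMap.zero_apply, LinearMap.zero_apply, map_zero]
  sq a v := by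
    by_cases ha : a = i
    · rw [if_pos ha]
      exact shf_shf k v
    · rw [if_neg ha]
      rfl

theorem Vm_ses (i : Fin r) : Nonempty (SES (one k r) (Vm k r i) (one k r)) := by
  refine ⟨⟨LinearMap.inl k k k, LinearMap.snd k k k, ?_, ?_, ?_, ?_, ?_⟩⟩
  · intro j v
    change LinearMap.inl k k k 0 = (if j = i then shf k else 0) ((LinearMap.inl k k k) v)
    by_cases hj : j = i
    · rw [if_pos hj]
      rfl
    · rw [if_neg hj]
      rfl
  · intro j v
    change (LinearMap.snd k k k) ((if j = i then shf k else 0) v) = 0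
    by_cases hj : j = i
    · rw [if_pos hj]
      rfl
    · rw [if_neg hj]
      rfl
  · intro a ha
    exact (congrArg Prod.fst ha : _)
  · intro c
    exact ⟨(0, c), rfl⟩
  · intro b
    constructor
    · intro hb
      refine ⟨b.1, ?_⟩
      exact Prod.ext rfl (Eq.symm hb)
    · rintro ⟨a, rfl⟩
      rfl

end

section

variable (k : Type u) [Field k] [CharP k 2] (r : ℕ)

/-- The tensor product of the `V_i` over a list. -/
noncomputable abbrev Pl (l : List (Fin r)) : Md k r :=
  (l.map (Vm k r)).foldr Md.tens (one k r)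

theorem Pl_dim (l : List (Fin r)) : (Pl k r l).dim = 2 ^ l.length := by
  induction l with
  | nil =>
    change Module.finrank k k = 1
    exact Module.finrank_self k
  | cons i t ih =>
    change Module.finrank k ((k × k) ⊗[k] (Pl k r t).V) = 2 ^ (t.length + 1)
    have h1 : Module.finrank k ((k × k) ⊗[k] (Pl k r t).V) =
        Module.finrank k (k × k) * Module.finrank k (Pl k r t).V :=
      Module.finrank_tensorProduct (R := k) (S := k)
    have h2 : Module.finrank k (k × k) = 2 := by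
      rw [Module.finrank_prod, Module.finrank_self]
    have h3 : Module.finrank k (Pl k r t).V = 2 ^ t.length := ih
    rw [h1, h2, h3, pow_succ, mul_comm]

omit [CharP k 2] in
theorem tmul_aux {V W : Type u} [AddCommGroup V] [Module k V] [AddCommGroup W] [Module k W]
    (f : V →ₗ[k] V) (g : W →ₗ[k] W) (v : V) (w : W) :
    (TensorProduct.map f LinearMap.id + TensorProduct.map LinearMap.id g +
      TensorProduct.map f g : (V ⊗[k] W) →ₗ[k] (V ⊗[k] W)) (v ⊗ₜ[k] w) =
      f v ⊗ₜ[k] w + v ⊗ₜ[k] g w + f v ⊗ₜ[k] g w := by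
  simp only [LinearMap.add_apply, TensorProduct.map_tmul, LinearMap.id_apply]

omit [CharP k 2] in
theorem zero_aux {V W : Type u} [AddCommGroup V] [Module k V] [AddCommGroup W] [Module k W]
    (f : V →ₗ[k] V) (g : W →ₗ[k] W) (hf : f = 0) (hg : g = 0) :
    (TensorProduct.map f LinearMap.id + TensorProduct.map LinearMap.id g +
      TensorProduct.map f g : (V ⊗[k] W) →ₗ[k] (V ⊗[k] W)) = 0 := by
  apply TensorProduct.ext'
  intro v w
  rw [tmul_aux k f g, hf, hg]
  simp only [LinearMap.zero_apply, TensorProduct.zero_tmul, TensorProduct.tmul_zero, add_zero]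

theorem Pl_zero (l : List (Fin r)) (i : Fin r) (hi : i ∉ l) : (Pl k r l).x i = 0 := by
  induction l with
  | nil => rfl
  | cons j t ih =>
    have hij : i ≠ j := fun h => hi (by rw [h]; exact List.mem_cons_self)
    have hit : i ∉ t := fun h => hi (List.mem_cons_of_mem _ h)
    have h2 : (Vm k r j).x i = 0 := if_neg hij
    exact zero_aux k ((Vm k r j).x i) ((Pl k r t).x i) h2 (ih hit)

theorem Pl_x_ne (j : Fin r) (t : List (Fin r)) (i : Fin r) (hij : i ≠ j) (v : k × k)
    (u : (Pl k r t).V) :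
    (Pl k r (j :: t)).x i (v ⊗ₜ[k] u) = v ⊗ₜ[k] ((Pl k r t).x i u) := by
  have h1 : (Pl k r (j :: t)).x i (v ⊗ₜ[k] u) = (Vm k r j).x i v ⊗ₜ[k] u +
      v ⊗ₜ[k] (Pl k r t).x i u + (Vm k r j).x i v ⊗ₜ[k] (Pl k r t).x i u :=
    tmul_aux k ((Vm k r j).x i) ((Pl k r t).x i) v u
  have h2 : (Vm k r j).x i = 0 := if_neg hij
  have h3 : (Vm k r j).x i v = 0 := by rw [h2]; rfl
  have h4 : (Vm k r j).x i v ⊗ₜ[k] u + v ⊗ₜ[k] (Pl k r t).x i u +
      (Vm k r j).x i v ⊗ₜ[k] (Pl k r t).x i u = v ⊗ₜ[k] ((Pl k r t).x i u) := by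
    rw [h3, TensorProduct.zero_tmul, TensorProduct.zero_tmul, add_zero, zero_add]
  exact h1.trans h4

theorem Pl_x_eq (j : Fin r) (t : List (Fin r)) (hj : j ∉ t) (v : k × k)
    (u : (Pl k r t).V) :
    (Pl k r (j :: t)).x j (v ⊗ₜ[k] u) = (shf k v) ⊗ₜ[k] u := by
  have h1 : (Pl k r (j :: t)).x j (v ⊗ₜ[k] u) = (Vm k r j).x j v ⊗ₜ[k] u +
      v ⊗ₜ[k] (Pl k r t).x j u + (Vm k r j).x j v ⊗ₜ[k] (Pl k r t).x j u :=
    tmul_aux k ((Vm k r j).x j) ((Pl k r t).x j) v u
  have h2 : (Vm k r j).x j = shf k := if_pos rfl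
  have h3 : (Vm k r j).x j v = shf k v := by rw [h2]
  have h5 : (Pl k r t).x j u = 0 := by rw [Pl_zero k r t j hj]; rfl
  have h4 : (Vm k r j).x j v ⊗ₜ[k] u + v ⊗ₜ[k] (Pl k r t).x j u +
      (Vm k r j).x j v ⊗ₜ[k] (Pl k r t).x j u = (shf k v) ⊗ₜ[k] u := by
    rw [h3, h5, TensorProduct.tmul_zero, TensorProduct.tmul_zero, add_zero, add_zero]
  exact h1.trans h4

theorem Pl_prod_ne (j : Fin r) (t : List (Fin r)) (s : List (Fin r)) (hs : j ∉ s) (v : k × k)
    (u : (Pl k r t).V) :
    (s.map (Pl k r (j :: t)).x).prod (v ⊗ₜ[k] u) = v ⊗ₜ[k] ((s.map (Pl k r t).x).prod u) := by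
  induction s with
  | nil => rfl
  | cons i s ih =>
    have hij : i ≠ j := fun h => hs (by rw [h]; exact List.mem_cons_self)
    have his : j ∉ s := fun h => hs (List.mem_cons_of_mem _ h)
    rw [List.map_cons, List.prod_cons, List.map_cons, List.prod_cons]
    change (Pl k r (j :: t)).x i ((s.map (Pl k r (j :: t)).x).prod (v ⊗ₜ[k] u)) =
      v ⊗ₜ[k] ((Pl k r t).x i ((s.map (Pl k r t).x).prod u))
    rw [ih his]
    exact Pl_x_ne k r j t i hij v _

theorem Pl_top (l : List (Fin r)) (hl : l.Nodup) :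
    ∃ (w : (Pl k r l).V) (φ : (Pl k r l).V →ₗ[k] k), φ ((l.map (Pl k r l).x).prod w) = 1 := by
  induction l with
  | nil => exact ⟨(1 : k), LinearMap.id, rfl⟩
  | cons j t ih =>
    obtain ⟨hj, ht⟩ := List.nodup_cons.mp hl
    obtain ⟨w, φ, hw⟩ := ih ht
    refine ⟨((0, 1) : k × k) ⊗ₜ[k] w,
      (TensorProduct.lid k k).toLinearMap ∘ₗ TensorProduct.map (LinearMap.fst k k k) φ, ?_⟩
    rw [List.map_cons, List.prod_cons]
    change ((TensorProduct.lid k k).toLinearMap ∘ₗ TensorProduct.map (LinearMap.fst k k k) φ)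
      ((Pl k r (j :: t)).x j ((t.map (Pl k r (j :: t)).x).prod (((0, 1) : k × k) ⊗ₜ[k] w))) = 1
    rw [Pl_prod_ne k r j t t hj, Pl_x_eq k r j t hj]
    change (TensorProduct.lid k k) ((TensorProduct.map (LinearMap.fst k k k) φ)
      ((shf k ((0, 1) : k × k)) ⊗ₜ[k] ((t.map (Pl k r t).x).prod w))) = 1
    rw [TensorProduct.map_tmul, hw, TensorProduct.lid_tmul]
    change (1 : k) • (1 : k) = 1
    exact one_smul k 1

theorem Pl_aug (l : List (Fin r)) :
    ∃ ε : (Pl k r l).V →ₗ[k] k, (∀ c, ∃ v, ε v = c) ∧ ∀ i v, ε ((Pl k r l).x i v) = 0 := by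
  induction l with
  | nil => exact ⟨LinearMap.id, fun c => ⟨c, rfl⟩, fun i v => rfl⟩
  | cons j t ih =>
    obtain ⟨ε, h1, h2⟩ := ih
    refine ⟨(TensorProduct.lid k k).toLinearMap ∘ₗ TensorProduct.map (LinearMap.snd k k k) ε,
      ?_, ?_⟩
    · intro c
      obtain ⟨v, hv⟩ := h1 c
      refine ⟨((0, 1) : k × k) ⊗ₜ[k] v, ?_⟩
      change (TensorProduct.lid k k) ((TensorProduct.map (LinearMap.snd k k k) ε)
        (((0, 1) : k × k) ⊗ₜ[k] v)) = c
      rw [TensorProduct.map_tmul, hv, TensorProduct.lid_tmul]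
      exact one_smul k c
    · intro i v
      have hA : ∀ w : k × k, ((Vm k r j).x i w).2 = 0 := by
        intro w
        change ((if i = j then shf k else 0) w).2 = 0
        by_cases hij : i = j
        · rw [if_pos hij]
          rfl
        · rw [if_neg hij]
          rfl
      have key : ((TensorProduct.lid k k).toLinearMap ∘ₗ
          TensorProduct.map (LinearMap.snd k k k) ε) ∘ₗ
          (TensorProduct.map ((Vm k r j).x i) LinearMap.id +
            TensorProduct.map LinearMap.id ((Pl k r t).x i) +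
            TensorProduct.map ((Vm k r j).x i) ((Pl k r t).x i)) = 0 := by
        apply TensorProduct.ext'
        intro a b
        simp only [LinearMap.comp_apply, LinearMap.add_apply, TensorProduct.map_tmul, map_add,
          LinearMap.id_apply, LinearMap.snd_apply, hA, h2, TensorProduct.zero_tmul,
          TensorProduct.tmul_zero, add_zero, map_zero, LinearMap.zero_apply]
      exact congrArg (fun T => T v) key

end

/-- The kernel of a homomorphism to the trivial module. -/
abbrev kerMd {k : Type u} [Field k] {r : ℕ} (N : Md k r) (ε : N.V →ₗ[k] k)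
    (hε : ∀ i v, ε (N.x i v) = 0) : Md k r where
  V := LinearMap.ker ε
  x i := LinearMap.codRestrict (LinearMap.ker ε) (N.x i ∘ₗ (LinearMap.ker ε).subtype)
    (fun v => hε i v.1)
  comm i j v := Subtype.ext (N.comm i j v.1)
  sq i v := Subtype.ext (N.sq i v.1)

theorem kerMd_ses {k : Type u} [Field k] {r : ℕ} (N : Md k r) (ε : N.V →ₗ[k] k)
    (hε : ∀ i v, ε (N.x i v) = 0) (hs : ∀ c, ∃ v, ε v = c) :
    Nonempty (SES (kerMd N ε hε) N (one k r)) := by
  refine ⟨⟨(LinearMap.ker ε).subtype, ε, ?_, ?_, ?_, ?_, ?_⟩⟩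
  · intro i v
    rfl
  · intro i v
    exact hε i v
  · intro a ha
    exact Subtype.ext ha
  · exact hs
  · intro b
    constructor
    · intro hb
      exact ⟨⟨b, hb⟩, rfl⟩
    · rintro ⟨a, rfl⟩
      exact a.2

theorem proof_vees : S_vees.{u} := by
  intro k _ _ r
  refine ⟨Vm k r, Vm_ses k r, ?_, ?_⟩
  · rw [List.ofFn_eq_map]
    change (Pl k r (List.finRange r)).core = 0
    obtain ⟨w, φ, hw⟩ := Pl_top k r (List.finRange r) (List.nodup_finRange r)
    have hn : (Pl k r (List.finRange r)).nrm =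
        ((List.finRange r).map (Pl k r (List.finRange r)).x).prod := by
      unfold Md.nrm
      rw [List.ofFn_eq_map]
    have hne : (Pl k r (List.finRange r)).nrm w ≠ 0 := by
      intro h0
      rw [hn] at h0
      rw [h0, map_zero] at hw
      exact zero_ne_one hw
    have hrank : 1 ≤ Module.finrank k (LinearMap.range (Pl k r (List.finRange r)).nrm) := by
      rw [Nat.one_le_iff_ne_zero]
      intro h0
      have h1 : LinearMap.range (Pl k r (List.finRange r)).nrm = ⊥ :=
        Submodule.finrank_eq_zero.mp h0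
      have h2 : (Pl k r (List.finRange r)).nrm w ∈
          LinearMap.range (Pl k r (List.finRange r)).nrm := ⟨w, rfl⟩
      rw [h1, Submodule.mem_bot] at h2
      exact hne h2
    unfold Md.core
    rw [Pl_dim k r, List.length_finRange]
    apply Nat.sub_eq_zero_of_le
    calc 2 ^ r = 2 ^ r * 1 := (mul_one _).symm
      _ ≤ _ := Nat.mul_le_mul_left _ hrank
  · rw [List.ofFn_eq_map]
    obtain ⟨ε, h1, h2⟩ := Pl_aug k r (List.finRange r)
    exact ⟨kerMd (Pl k r (List.finRange r)) ε h2, kerMd_ses _ ε h2 h1⟩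

end Pool.Agent.H102.Kt
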