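import Pool.Agent.H812.SF.Stm2

set_option autoImplicit false

open Set Filter Topology MeasureTheory

namespace Pool.Agent.H102.SfINC

open Pool.Agent.N229.SC Pool.Agent.H812.SF

theorem proof_INC (hTOP : S_TOP) : S_INC := by
  intro ρ r η f hC hη hb
  obtain ⟨hop, -, -, -, hfr, -⟩ := hTOP ρ r f hC
  have hρ := hC.rho_pos
  have hcl : closure (Metric.ball (0 : ℂ) 1) ⊆ Metric.ball 0 r := by
    rw [closure_ball (0 : ℂ) one_ne_zero]
    exact Metric.closedBall_subset_ball hC.r_gt
  have hD : DiffContOnCl ℂ f (Metric.ball 0 1) := by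
    refine ⟨hC.f_diff.mono (subset_closure.trans hcl), ?_⟩
    exact (hC.f_diff.mono hcl).continuousOn
  constructor
  · intro x hx
    by_contra hxn
    have h0 : (0 : ℂ) ∈ Metric.ball (0 : ℂ) (ρ - η) := by
      rw [Metric.mem_ball, dist_self]
      exact lt_of_le_of_lt dist_nonneg (Metric.mem_ball.mp hx)
    have h0' : (0 : ℂ) ∈ Om f := ⟨0, Metric.mem_ball_self one_pos, hC.f_zero⟩
    have hpc : IsPreconnected (Metric.ball (0 : ℂ) (ρ - η)) := (convex_ball (0 : ℂ) _).isPreconnected
    have hno : ∀ y ∈ Metric.ball (0 : ℂ) (ρ - η), y ∉ frontier (Om f) := by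
      intro y hy1 hy2
      rw [hfr] at hy2
      obtain ⟨z, hz, rfl⟩ := hy2
      have hz1 : ‖z‖ = 1 := by simpa using hz
      have h1 := (abs_le.mp (hb z hz1)).1
      have h2 : ‖f z‖ < ρ - η := by simpa using hy1
      linarith
    have hcov : Metric.ball (0 : ℂ) (ρ - η) ⊆ Om f ∪ (closure (Om f))ᶜ := by
      intro y hy
      by_cases h : y ∈ Om f
      · exact Or.inl h
      · refine Or.inr fun hc => hno y hy ?_
        rw [hop.frontier_eq]
        exact ⟨hc, h⟩
    have hxc : x ∈ (closure (Om f))ᶜ := (hcov hx).resolve_left hxn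
    obtain ⟨y, -, hy1, hy2⟩ := hpc (Om f) (closure (Om f))ᶜ hop isClosed_closure.isOpen_compl
      hcov ⟨0, h0, h0'⟩ ⟨x, hx, hxc⟩
    exact hy2 (subset_closure hy1)
  · have hsub : Om f ⊆ Metric.closedBall 0 (ρ + η) := by
      rintro _ ⟨z, hz, rfl⟩
      rw [mem_closedBall_zero_iff]
      refine Complex.norm_le_of_forall_mem_frontier_norm_le Metric.isBounded_ball hD ?_
        (subset_closure hz)
      intro w hw
      rw [frontier_ball (0 : ℂ) one_ne_zero] at hw
      have hw1 : ‖w‖ = 1 := by simpa using hw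
      have := (abs_le.mp (hb w hw1)).2
      linarith
    have h := interior_maximal hsub hop
    rwa [interior_closedBall (0 : ℂ) (by positivity : ρ + η ≠ 0)] at h

end Pool.Agent.H102.SfINC
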